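import Pool.Agent.X195.MC2

/-!
# MP_cb28d9_gt (Q1): all maximal chains `s`-complete does not imply `s`-complete
-/

set_option autoImplicit false

open Filter Topology

namespace Pool.Agent.Results.MP_cb28d9_gt.ChainsSCompleteNotSComplete

open Pool.Agent.X195.MC

/-- `↓A` -/
def Down {X : Type} [SemilatticeInf X] (A : Set X) : Set X := {x | ∃ a ∈ A, x ≤ a}

/-- `↑A` -/
def Up {X : Type} [SemilatticeInf X] (A : Set X) : Set X := {x | ∃ a ∈ A, a ≤ x}

/-- `s`-completeness. The semilattice operation is `x ⊓ y` and `x ≤ y` means `x ⊓ y = x`. -/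
def SComplete (X : Type) [SemilatticeInf X] [TopologicalSpace X] : Prop :=
  (∀ S : Set X, S.Nonempty → (∀ x ∈ S, ∀ y ∈ S, x ⊓ y ∈ S) →
    ∃ i, IsGLB S i ∧ i ∈ closure (Up S)) ∧
  (∀ C : Set X, C.Nonempty → IsChain (· ≤ ·) C → ∃ s, IsLUB C s ∧ s ∈ closure (Down C))

/-- A chain `L`, with the restricted operation and order, is a semilattice. -/
abbrev chainSemilattice {X : Type} [SemilatticeInf X] {L : Set X} (hL : IsChain (· ≤ ·) L) :
    SemilatticeInf L :=
  Subtype.semilatticeInf (P := fun x => x ∈ L) fun x y hx hy => by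
    rcases hL.total hx hy with h | h
    · rwa [inf_eq_left.2 h]
    · rwa [inf_eq_right.2 h]

/-- There is a Hausdorff topological semilattice (operation `⊓`, jointly continuous) all of whose
maximal chains `L` are `s`-complete (as topological semilattices in their own right: restricted
operation, subspace topology, everything computed inside `L`), and which is not `s`-complete. -/
theorem result : ∃ (X : Type) (_ : SemilatticeInf X) (_ : TopologicalSpace X),
    ContinuousInf X ∧ T2Space X ∧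
    (∀ (L : Set X) (hL : IsMaxChain (· ≤ ·) L),
      @SComplete L (chainSemilattice hL.1) inferInstance) ∧
    ¬ SComplete X := by
  refine ⟨X, inferInstance, inferInstance, inferInstance, inferInstance, ?_, ?_⟩
  · intro L hL
    let _ : SemilatticeInf L := chainSemilattice hL.1
    constructor
    · intro S hne _
      obtain ⟨i, hi, hglb, hcl⟩ := inf_in_chain hL (Subtype.val '' S)
        (by rintro _ ⟨x, -, rfl⟩; exact x.2) (hne.image _)
      refine ⟨⟨i, hi⟩, ⟨?_, ?_⟩, ?_⟩
      · intro x hx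
        exact hglb.1 ⟨x, hx, rfl⟩
      · intro y hy
        refine hglb.2 ?_
        rintro _ ⟨x, hx, rfl⟩
        exact hy hx
      · rw [closure_subtype]
        refine closure_mono ?_ hcl
        rintro y ⟨hyL, _, ⟨x, hx, rfl⟩, hxy⟩
        exact ⟨⟨y, hyL⟩, ⟨x, hx, hxy⟩, rfl⟩
    · intro C hne _
      obtain ⟨m, hm, hmax⟩ := chain_has_max (Subtype.val '' C) (hne.image _)
        (hL.1.mono (by rintro _ ⟨x, -, rfl⟩; exact x.2))
      obtain ⟨x, hx, rfl⟩ := hm
      exact ⟨x, ⟨fun y hy => hmax y.1 ⟨y, hy, rfl⟩, fun y hy => hy hx⟩,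
        subset_closure ⟨x, hx, le_rfl⟩⟩
  · rintro ⟨h, -⟩
    obtain ⟨i, hi, hi2⟩ := h (Set.range X.s) ⟨_, ∅, rfl⟩ (by
      rintro _ ⟨F, rfl⟩ _ ⟨G, rfl⟩
      exact ⟨F ∪ G, rfl⟩)
    rw [glb_range_s i hi] at hi2
    refine not_mem_closure (closure_mono ?_ hi2)
    rintro y ⟨_, ⟨F, rfl⟩, hy⟩
    rcases y with G | y
    · exact ⟨G, rfl⟩
    · exact absurd hy not_s_le_c

end Pool.Agent.Results.MP_cb28d9_gt.ChainsSCompleteNotSComplete
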